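import Mathlib
import Pool.Agent.U41.PH.Stm0

/-! Project PH package C34: integral zeros, and large prime divisors of values. -/

set_option autoImplicit false

namespace Pool.Agent.U41.PH

open MvPolynomial

theorem cnt_mono_C34 (k H : ℕ) (Q Q' : (Fin k → ℤ) → Prop) (h : ∀ x, Q x → Q' x) :
    cnt k H Q ≤ cnt k H Q' := by
  classical
  unfold cnt
  apply Finset.card_le_card
  intro x hx
  rw [Finset.mem_filter] at hx ⊢
  exact ⟨hx.1, h x hx.2⟩

theorem C3_ok (h2 : S_C2) : S_C3 := by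
  intro k f M a H hM hf
  obtain ⟨m, hm⟩ := MvPolynomial.ne_zero_iff.1 hf
  obtain ⟨p, hp1, hp⟩ := Nat.exists_infinite_primes (2 * H + 1 + M + (coeff m f).natAbs + 1)
  have hpM : ¬ p ∣ M := fun h => by
    have := Nat.le_of_dvd (Nat.pos_of_ne_zero hM) h
    omega
  have hpm : ¬ (p : ℤ) ∣ coeff m f := fun h => by
    have h1 : p ∣ (coeff m f).natAbs := Int.natCast_dvd.1 h
    have h2 : 0 < (coeff m f).natAbs := Int.natAbs_pos.2 hm
    have := Nat.le_of_dvd h2 h1
    omega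
  have h3 := h2 k f p M a H hp hpM ⟨m, hpm⟩
  have h4 : (cnt k H (fun x => eval (pt M a x) f = 0) : ℝ) ≤
      (cnt k H (fun x => (p : ℤ) ∣ eval (pt M a x) f) : ℝ) := by
    exact_mod_cast cnt_mono_C34 k H _ _ (fun x hx => by rw [hx]; exact dvd_zero _)
  have hp0 : (0 : ℝ) < p := by exact_mod_cast hp.pos
  have h5 : (2 * (H : ℝ) + 1) / p ≤ 1 := by
    rw [div_le_one hp0]
    have : 2 * H + 1 ≤ p := by omega
    exact_mod_cast this
  calc (cnt k H (fun x => eval (pt M a x) f = 0) : ℝ)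
      ≤ f.totalDegree * (2 * (H : ℝ) + 1) ^ (k - 1) * ((2 * (H : ℝ) + 1) / p + 1) := h4.trans h3
    _ ≤ f.totalDegree * (2 * (H : ℝ) + 1) ^ (k - 1) * (1 + 1) := by gcongr
    _ = 2 * f.totalDegree * (2 * (H : ℝ) + 1) ^ (k - 1) := by ring

theorem natAbs_eval_C34 {k : ℕ} (f : MvPolynomial (Fin k) ℤ) (M : ℕ) (a x : Fin k → ℤ) (H : ℕ)
    (hx : ∀ i, (x i).natAbs ≤ H) :
    (eval (pt M a x) f).natAbs ≤
      (∑ m ∈ f.support, (coeff m f).natAbs * ∏ i, ((a i).natAbs + M) ^ (m i)) *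
        (H + 1) ^ f.totalDegree := by
  have hpt : ∀ i, (pt M a x i).natAbs ≤ ((a i).natAbs + M) * (H + 1) := by
    intro i
    unfold pt
    calc (a i + M * x i).natAbs ≤ (a i).natAbs + ((M : ℤ) * x i).natAbs := Int.natAbs_add_le _ _
      _ = (a i).natAbs + M * (x i).natAbs := by rw [Int.natAbs_mul, Int.natAbs_natCast]
      _ ≤ (a i).natAbs + M * H := by gcongr; exact hx i
      _ ≤ ((a i).natAbs + M) * (H + 1) := by nlinarith [Nat.zero_le (a i).natAbs, Nat.zero_le M]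
  rw [eval_eq']
  refine (Int.natAbs_sum_le _ _).trans ?_
  rw [Finset.sum_mul]
  refine Finset.sum_le_sum fun m hm => ?_
  have e1 : (∏ i, pt M a x i ^ m i).natAbs = ∏ i, (pt M a x i).natAbs ^ m i := by
    exact (map_prod Int.natAbsHom (fun i => pt M a x i ^ m i) Finset.univ).trans
      (Finset.prod_congr rfl fun i _ => Int.natAbs_pow _ _)
  have e2 : ∑ i, m i ≤ f.totalDegree := by
    have := MvPolynomial.le_totalDegree hm
    rwa [Finsupp.sum_fintype _ _ (fun _ => rfl)] at this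
  rw [Int.natAbs_mul, e1, mul_assoc]
  refine Nat.mul_le_mul_left _ ?_
  calc ∏ i, (pt M a x i).natAbs ^ m i ≤ ∏ i, (((a i).natAbs + M) * (H + 1)) ^ m i :=
        Finset.prod_le_prod' fun i _ => Nat.pow_le_pow_left (hpt i) _
    _ = (∏ i, ((a i).natAbs + M) ^ m i) * (H + 1) ^ ∑ i, m i := by
        simp only [mul_pow, Finset.prod_mul_distrib, Finset.prod_pow_eq_pow_sum]
    _ ≤ (∏ i, ((a i).natAbs + M) ^ m i) * (H + 1) ^ f.totalDegree := by
        refine Nat.mul_le_mul_left _ ?_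
        exact Nat.pow_le_pow_right (Nat.succ_pos H) e2

theorem C4_ok : S_C4 := by
  intro k f M a
  refine ⟨∑ m ∈ f.support, (coeff m f).natAbs * ∏ i, ((a i).natAbs + M) ^ (m i),
    fun H hH x hx hne S hS => ?_⟩
  have hxi : ∀ i, (x i).natAbs ≤ H := by
    intro i
    have := Fintype.mem_piFinset.1 hx i
    rw [Finset.mem_Icc] at this
    omega
  have hb := natAbs_eval_C34 f M a x H hxi
  set c := ∑ m ∈ f.support, (coeff m f).natAbs * ∏ i, ((a i).natAbs + M) ^ (m i) with hc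
  set D := f.totalDegree with hD
  by_contra hcard
  push Not at hcard
  obtain ⟨T, hTS, hT⟩ := Finset.exists_subset_card_eq (show D + 2 ≤ S.card by omega)
  have hdvd : ∏ p ∈ T, p ∣ (eval (pt M a x) f).natAbs :=
    Finset.prod_primes_dvd _ (fun p hp => (hS p (hTS hp)).1.prime)
      (fun p hp => Int.natCast_dvd.1 (hS p (hTS hp)).2.2)
  have h1 : ∏ p ∈ T, p ≤ (eval (pt M a x) f).natAbs :=
    Nat.le_of_dvd (Int.natAbs_pos.2 hne) hdvd
  have h2 : (H + 1) ^ (D + 2) ≤ ∏ p ∈ T, p := by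
    calc (H + 1) ^ (D + 2) = ∏ _p ∈ T, (H + 1) := by rw [Finset.prod_const, hT]
      _ ≤ ∏ p ∈ T, p := Finset.prod_le_prod' fun p hp => (hS p (hTS hp)).2.1
  have h3 : (H + 1) ^ D * (H + 1) ^ 2 ≤ (H + 1) ^ D * c := by
    rw [← pow_add, mul_comm _ c]
    exact (h2.trans h1).trans hb
  have h4 : (H + 1) ^ 2 ≤ c := Nat.le_of_mul_le_mul_left h3 (by positivity)
  nlinarith

end Pool.Agent.U41.PH
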